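import Pool.Agent.H643R2.SH.Defs
import Pool.Agent.H936R2.SH.Basic

/-! Languages of height at most `n` in the inductive sense are denoted by generalised regular
expressions of height at most `n`. -/

set_option autoImplicit false

namespace Pool.Agent.H551.GSH

open Pool.Agent.H643R2.SH

theorem heightLE_of_HS {α : Type} {n : ℕ} {X : Set (List α)}
    (h : Pool.Agent.H936R2.SH.HS n X) : HeightLE n (X : Language α) := by
  induction h with
  | empty n => exact HeightLE.empty n
  | eps n => exact HeightLE.nil n
  | letter n a => exact HeightLE.char n a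
  | union _ _ h1 h2 => exact h1.union h2
  | cat _ _ h1 h2 => exact h1.mul h2
  | compl _ h1 => exact h1.compl
  | @star n X _ h1 =>
    have h2 := h1.kstar
    convert h2 using 1
    apply Set.ext
    intro w
    refine Iff.trans ?_ (Language.mem_kstar (l := (X : Language α)) (x := w)).symm
    constructor
    · rintro ⟨l, hl, hw⟩
      exact ⟨l, hw, hl⟩
    · rintro ⟨l, hw, hl⟩
      exact ⟨l, hl, hw⟩

theorem HS_of_expr {α : Type} (E : GRE α) :
    ∀ {n : ℕ}, E.height ≤ n → Pool.Agent.H936R2.SH.HS n (E.lang : Set (List α)) := by
  induction E with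
  | zero => intro n _; exact .empty n
  | one => intro n _; exact .eps n
  | char a => intro n _; exact .letter n a
  | union E F h1 h2 =>
    intro n h
    exact (h1 (le_trans (le_max_left _ _) h)).union (h2 (le_trans (le_max_right _ _) h))
  | inter E F h1 h2 =>
    intro n h
    exact (h1 (le_trans (le_max_left _ _) h)).inter (h2 (le_trans (le_max_right _ _) h))
  | cat E F h1 h2 =>
    intro n h
    exact (h1 (le_trans (le_max_left _ _) h)).cat (h2 (le_trans (le_max_right _ _) h))
  | compl E h1 => intro n h; exact (h1 h).compl
  | star E h1 =>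
    intro n h
    cases n with
    | zero => exact absurd h (by simp [GRE.height])
    | succ n =>
      have h2 := (h1 (Nat.le_of_succ_le_succ h)).star
      convert h2 using 1
      apply Set.ext
      intro w
      refine Iff.trans (Language.mem_kstar (l := E.lang) (x := w)) ?_
      constructor
      · rintro ⟨l, hw, hl⟩
        exact ⟨l, hl, hw⟩
      · rintro ⟨l, hl, hw⟩
        exact ⟨l, hw, hl⟩

theorem heightLE_iff_HS {α : Type} {n : ℕ} {X : Set (List α)} :
    HeightLE n (X : Language α) ↔ Pool.Agent.H936R2.SH.HS n X := by
  constructor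
  · rintro ⟨E, h1, h2⟩
    have := HS_of_expr E h1
    rwa [h2] at this
  · exact heightLE_of_HS

end Pool.Agent.H551.GSH
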